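import Pool.Agent.helper60.BN.ParamT

set_option autoImplicit false

/-!
# MP_94a57f_an, module D2: the bubble and its derivatives as functions of the parameters
-/

open MeasureTheory Filter Topology Set Metric
open scoped ContDiff Gradient RealInnerProductSpace ENNReal

noncomputable section
namespace Pool.Agent.helper13.BN
variable {N : ℕ}

/-- the denominator `μ² + |x - ξ|²` -/
def den60 (e : E N) (d μ : ℝ) (x : E N) : ℝ := μ ^ 2 + ‖x - cen e d‖ ^ 2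

/-- `(|x-ξ|² - μ²)/(μ² + |x-ξ|²)` -/
def fA60 (e : E N) (d μ : ℝ) (x : E N) : ℝ := (‖x - cen e d‖ ^ 2 - μ ^ 2) / den60 e d μ x

/-- `μ (x-ξ)·e/(μ² + |x-ξ|²)` -/
def fB60 (e : E N) (d μ : ℝ) (x : E N) : ℝ := μ * ⟪x - cen e d, e⟫ / den60 e d μ x

theorem den60_pos (e : E N) (d : ℝ) {μ : ℝ} (hμ : 0 < μ) (x : E N) : 0 < den60 e d μ x := by
  unfold den60; positivity

theorem hasDeriv_cen60 (e : E N) (d : ℝ) (x : E N) :
    HasDerivAt (fun d => x - cen e d) e d := by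
  unfold cen
  have h1 : HasDerivAt (fun d : ℝ => 1 - d) (-1) d := by
    simpa using (hasDerivAt_id d).const_sub 1
  have h2 := (h1.smul_const e).const_sub x
  simpa using h2

theorem hasDeriv_sq60 (e : E N) (d : ℝ) (x : E N) :
    HasDerivAt (fun d => ‖x - cen e d‖ ^ 2) (2 * ⟪x - cen e d, e⟫) d :=
  (hasDeriv_cen60 e d x).norm_sq

theorem hasDeriv_in60 {e : E N} (he : ‖e‖ = 1) (d : ℝ) (x : E N) :
    HasDerivAt (fun d => ⟪x - cen e d, e⟫) 1 d := by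
  have h1 := (hasDeriv_cen60 e d x).inner ℝ (hasDerivAt_const d e)
  simpa [he] using h1

theorem bub_eq60 (e : E N) (d μ : ℝ) (x : E N) :
    bub N μ (cen e d) x = alN N * μ ^ cc N * (den60 e d μ x) ^ (-cc N) := rfl

theorem bubMu_eq60 (e : E N) (d μ : ℝ) (x : E N) :
    bubMu N μ (cen e d) x = cc N * fA60 e d μ x * bub N μ (cen e d) x := rfl

theorem bubXi_eq60 (e : E N) (d μ : ℝ) (x : E N) :
    bubXi N e μ (cen e d) x = 2 * cc N * fB60 e d μ x * bub N μ (cen e d) x := rfl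

theorem bub_mu60 (e : E N) (d : ℝ) {μ : ℝ} (hμ : 0 < μ) (x : E N) :
    HasDerivAt (fun μ => bub N μ (cen e d) x) (μ⁻¹ * bubMu N μ (cen e d) x) μ := by
  have hD := den60_pos e d hμ x
  have h1 : HasDerivAt (fun μ : ℝ => μ ^ cc N) (cc N * μ ^ (cc N - 1)) μ :=
    Real.hasDerivAt_rpow_const (Or.inl hμ.ne')
  have h2 : HasDerivAt (fun μ : ℝ => den60 e d μ x) (2 * μ) μ := by
    unfold den60
    have := (hasDerivAt_pow 2 μ).add_const (‖x - cen e d‖ ^ 2)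
    simpa using this
  have h3 : HasDerivAt (fun μ : ℝ => (den60 e d μ x) ^ (-cc N))
      (2 * μ * (-cc N) * (den60 e d μ x) ^ (-cc N - 1)) μ :=
    h2.rpow_const (Or.inl hD.ne')
  have h4 := (h1.const_mul (alN N)).fun_mul h3
  have h5 : alN N * (cc N * μ ^ (cc N - 1)) * (den60 e d μ x) ^ (-cc N) +
      alN N * μ ^ cc N * (2 * μ * (-cc N) * (den60 e d μ x) ^ (-cc N - 1)) =
      μ⁻¹ * bubMu N μ (cen e d) x := by
    rw [Real.rpow_sub_one hμ.ne', Real.rpow_sub_one hD.ne', bubMu_eq60, bub_eq60, fA60]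
    have h6 : ‖x - cen e d‖ ^ 2 = den60 e d μ x - μ ^ 2 := by unfold den60; ring
    rw [h6]
    field_simp
    ring
  rw [← h5]
  exact h4

theorem bub_d60 (e : E N) (d : ℝ) {μ : ℝ} (hμ : 0 < μ) (x : E N) :
    HasDerivAt (fun d => bub N μ (cen e d) x) (-(μ⁻¹) * bubXi N e μ (cen e d) x) d := by
  have hD := den60_pos e d hμ x
  have h2 : HasDerivAt (fun d : ℝ => den60 e d μ x) (2 * ⟪x - cen e d, e⟫) d := by
    unfold den60
    exact (hasDeriv_sq60 e d x).const_add (μ ^ 2)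
  have h3 : HasDerivAt (fun d : ℝ => (den60 e d μ x) ^ (-cc N))
      (2 * ⟪x - cen e d, e⟫ * (-cc N) * (den60 e d μ x) ^ (-cc N - 1)) d :=
    h2.rpow_const (Or.inl hD.ne')
  have h4 := h3.const_mul (alN N * μ ^ cc N)
  have h5 : alN N * μ ^ cc N * (2 * ⟪x - cen e d, e⟫ * (-cc N) *
      (den60 e d μ x) ^ (-cc N - 1)) = -(μ⁻¹) * bubXi N e μ (cen e d) x := by
    rw [Real.rpow_sub_one hD.ne', bubXi_eq60, bub_eq60, fB60]
    field_simp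
  rw [← h5]
  exact h4

theorem fA_mu60 (e : E N) (d : ℝ) {μ : ℝ} (hμ : 0 < μ) (x : E N) :
    HasDerivAt (fun μ => fA60 e d μ x)
      (-(4 * μ * ‖x - cen e d‖ ^ 2) / den60 e d μ x ^ 2) μ := by
  have hD := den60_pos e d hμ x
  have h2 : HasDerivAt (fun μ : ℝ => den60 e d μ x) (2 * μ) μ := by
    unfold den60
    have := (hasDerivAt_pow 2 μ).add_const (‖x - cen e d‖ ^ 2)
    simpa using this
  have h1 : HasDerivAt (fun μ : ℝ => ‖x - cen e d‖ ^ 2 - μ ^ 2) (-(2 * μ)) μ := by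
    have := (hasDerivAt_pow 2 μ).const_sub (‖x - cen e d‖ ^ 2)
    simpa using this
  have h3 := h1.fun_div h2 hD.ne'
  have h5 : (-(2 * μ) * den60 e d μ x - (‖x - cen e d‖ ^ 2 - μ ^ 2) * (2 * μ)) /
      den60 e d μ x ^ 2 = -(4 * μ * ‖x - cen e d‖ ^ 2) / den60 e d μ x ^ 2 := by
    congr 1
    unfold den60; ring
  rw [← h5]
  exact h3

theorem fA_d60 (e : E N) (d : ℝ) {μ : ℝ} (hμ : 0 < μ) (x : E N) :
    HasDerivAt (fun d => fA60 e d μ x)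
      (4 * μ ^ 2 * ⟪x - cen e d, e⟫ / den60 e d μ x ^ 2) d := by
  have hD := den60_pos e d hμ x
  have h2 : HasDerivAt (fun d : ℝ => den60 e d μ x) (2 * ⟪x - cen e d, e⟫) d := by
    unfold den60
    exact (hasDeriv_sq60 e d x).const_add (μ ^ 2)
  have h1 : HasDerivAt (fun d : ℝ => ‖x - cen e d‖ ^ 2 - μ ^ 2) (2 * ⟪x - cen e d, e⟫) d :=
    (hasDeriv_sq60 e d x).sub_const (μ ^ 2)
  have h3 := h1.fun_div h2 hD.ne'
  have h5 : (2 * ⟪x - cen e d, e⟫ * den60 e d μ x - (‖x - cen e d‖ ^ 2 - μ ^ 2) *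
      (2 * ⟪x - cen e d, e⟫)) / den60 e d μ x ^ 2 =
      4 * μ ^ 2 * ⟪x - cen e d, e⟫ / den60 e d μ x ^ 2 := by
    congr 1
    unfold den60; ring
  rw [← h5]
  exact h3

theorem fB_mu60 (e : E N) (d : ℝ) {μ : ℝ} (hμ : 0 < μ) (x : E N) :
    HasDerivAt (fun μ => fB60 e d μ x)
      (⟪x - cen e d, e⟫ * (‖x - cen e d‖ ^ 2 - μ ^ 2) / den60 e d μ x ^ 2) μ := by
  have hD := den60_pos e d hμ x
  have h2 : HasDerivAt (fun μ : ℝ => den60 e d μ x) (2 * μ) μ := by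
    unfold den60
    have := (hasDerivAt_pow 2 μ).add_const (‖x - cen e d‖ ^ 2)
    simpa using this
  have h1 : HasDerivAt (fun μ : ℝ => μ * ⟪x - cen e d, e⟫) (⟪x - cen e d, e⟫) μ := by
    simpa using (hasDerivAt_id μ).mul_const (⟪x - cen e d, e⟫)
  have h3 := h1.fun_div h2 hD.ne'
  have h5 : (⟪x - cen e d, e⟫ * den60 e d μ x - (μ * ⟪x - cen e d, e⟫) * (2 * μ)) /
      den60 e d μ x ^ 2 =
      ⟪x - cen e d, e⟫ * (‖x - cen e d‖ ^ 2 - μ ^ 2) / den60 e d μ x ^ 2 := by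
    congr 1
    unfold den60; ring
  rw [← h5]
  exact h3

theorem fB_d60 {e : E N} (he : ‖e‖ = 1) (d : ℝ) {μ : ℝ} (hμ : 0 < μ) (x : E N) :
    HasDerivAt (fun d => fB60 e d μ x)
      (μ * (den60 e d μ x - 2 * ⟪x - cen e d, e⟫ ^ 2) / den60 e d μ x ^ 2) d := by
  have hD := den60_pos e d hμ x
  have h2 : HasDerivAt (fun d : ℝ => den60 e d μ x) (2 * ⟪x - cen e d, e⟫) d := by
    unfold den60
    exact (hasDeriv_sq60 e d x).const_add (μ ^ 2)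
  have h1 : HasDerivAt (fun d : ℝ => μ * ⟪x - cen e d, e⟫) μ d := by
    simpa using (hasDeriv_in60 he d x).const_mul μ
  have h3 := h1.fun_div h2 hD.ne'
  have h5 : (μ * den60 e d μ x - (μ * ⟪x - cen e d, e⟫) * (2 * ⟪x - cen e d, e⟫)) /
      den60 e d μ x ^ 2 =
      μ * (den60 e d μ x - 2 * ⟪x - cen e d, e⟫ ^ 2) / den60 e d μ x ^ 2 := by
    congr 1
    ring
  rw [← h5]
  exact h3

/-! ### Bounds -/

theorem abs_in_le60 {e : E N} (he : ‖e‖ = 1) (d : ℝ) (x : E N) :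
    |⟪x - cen e d, e⟫| ≤ ‖x - cen e d‖ := by
  have := abs_real_inner_le_norm (x - cen e d) e
  rwa [he, mul_one] at this

theorem bounds60 {e : E N} (he : ‖e‖ = 1) (d : ℝ) {μ : ℝ} (hμ : 0 < μ) (x : E N) :
    |fA60 e d μ x| ≤ 1 ∧ |fB60 e d μ x| ≤ 1 / 2 ∧
    |-(4 * μ * ‖x - cen e d‖ ^ 2) / den60 e d μ x ^ 2| ≤ 1 / μ ∧
    |4 * μ ^ 2 * ⟪x - cen e d, e⟫ / den60 e d μ x ^ 2| ≤ 2 / μ ∧
    |⟪x - cen e d, e⟫ * (‖x - cen e d‖ ^ 2 - μ ^ 2) / den60 e d μ x ^ 2| ≤ 1 / μ ∧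
    |μ * (den60 e d μ x - 2 * ⟪x - cen e d, e⟫ ^ 2) / den60 e d μ x ^ 2| ≤ 3 / μ := by
  have hD := den60_pos e d hμ x
  have hs := abs_in_le60 he d x
  set r : ℝ := ‖x - cen e d‖ with hr
  set s : ℝ := ⟪x - cen e d, e⟫ with hsdef
  have hr0 : 0 ≤ r := norm_nonneg _
  have hDe : den60 e d μ x = μ ^ 2 + r ^ 2 := rfl
  rw [fA60, fB60, ← hr, ← hsdef]
  set D : ℝ := den60 e d μ x with hDdef
  have hs2 : s ^ 2 ≤ r ^ 2 := by rw [← sq_abs s]; exact pow_le_pow_left₀ (abs_nonneg s) hs 2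
  have hmr : 2 * (μ * r) ≤ D := by rw [hDe]; nlinarith [sq_nonneg (μ - r)]
  have hmD : μ ^ 2 ≤ D := by rw [hDe]; nlinarith
  have hrD : r ^ 2 ≤ D := by rw [hDe]; nlinarith
  refine ⟨?_, ?_, ?_, ?_, ?_, ?_⟩
  · rw [abs_div, abs_of_pos hD, div_le_one hD, abs_le]
    constructor <;> rw [hDe] <;> nlinarith
  · rw [abs_div, abs_of_pos hD, div_le_iff₀ hD, abs_mul, abs_of_pos hμ]
    nlinarith
  · rw [abs_div, abs_of_pos (pow_pos hD 2), abs_neg, abs_of_nonneg (by positivity),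
      div_le_div_iff₀ (pow_pos hD 2) hμ]
    nlinarith [mul_self_nonneg (2 * (μ * r)), mul_nonneg hμ.le hr0]
  · rw [abs_div, abs_of_pos (pow_pos hD 2), abs_mul, abs_of_pos (by positivity : (0:ℝ) < 4 * μ ^ 2),
      div_le_div_iff₀ (pow_pos hD 2) hμ]
    have h1 : 4 * μ ^ 2 * |s| * μ ≤ 4 * μ ^ 2 * r * μ := by
      have : 0 ≤ 4 * μ ^ 2 := by positivity
      nlinarith [mul_nonneg this hμ.le]
    have h2 : 4 * μ ^ 2 * r * μ = 2 * (μ ^ 2 * (2 * (μ * r))) := by ring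
    have h3 : μ ^ 2 * (2 * (μ * r)) ≤ D * D :=
      mul_le_mul hmD hmr (by positivity) hD.le
    nlinarith
  · rw [abs_div, abs_of_pos (pow_pos hD 2), abs_mul,
      div_le_div_iff₀ (pow_pos hD 2) hμ]
    have h1 : |r ^ 2 - μ ^ 2| ≤ D := by
      rw [abs_le]
      constructor <;> rw [hDe] <;> nlinarith
    have h2 : |s| * |r ^ 2 - μ ^ 2| ≤ r * D :=
      mul_le_mul hs h1 (abs_nonneg _) hr0
    have h3 : r * D * μ ≤ 1 * D ^ 2 := by nlinarith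
    calc |s| * |r ^ 2 - μ ^ 2| * μ ≤ r * D * μ := mul_le_mul_of_nonneg_right h2 hμ.le
      _ ≤ 1 * D ^ 2 := h3
  · rw [abs_div, abs_of_pos (pow_pos hD 2), abs_mul, abs_of_pos hμ,
      div_le_div_iff₀ (pow_pos hD 2) hμ]
    have h1 : |D - 2 * s ^ 2| ≤ 3 * D := by
      rw [abs_le]
      constructor <;> nlinarith [sq_nonneg s]
    have h2 : μ * |D - 2 * s ^ 2| * μ ≤ μ ^ 2 * (3 * D) := by
      have := mul_le_mul_of_nonneg_left h1 (sq_nonneg μ)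
      nlinarith
    nlinarith [mul_le_mul_of_nonneg_right hmD (by positivity : (0:ℝ) ≤ 3 * D)]

/-! ### Products with the nonlinearity -/

theorem dM_eq60 (hN : 3 ≤ N) (e : E N) (d μ : ℝ) (x : E N) :
    dnl N (bub N μ (cen e d) x) * bubMu N μ (cen e d) x =
      (pm N + 1) * cc N * (fA60 e d μ x * nl N (bub N μ (cen e d) x)) := by
  have h := dnl_mul_self hN (bub N μ (cen e d) x)
  rw [bubMu_eq60]
  linear_combination (cc N * fA60 e d μ x) * h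

theorem dX_eq60 (hN : 3 ≤ N) (e : E N) (d μ : ℝ) (x : E N) :
    dnl N (bub N μ (cen e d) x) * bubXi N e μ (cen e d) x =
      2 * ((pm N + 1) * cc N) * (fB60 e d μ x * nl N (bub N μ (cen e d) x)) := by
  have h := dnl_mul_self hN (bub N μ (cen e d) x)
  rw [bubXi_eq60]
  linear_combination (2 * cc N * fB60 e d μ x) * h

theorem nl_mu60 (hN : 3 ≤ N) (hN5 : N ≤ 5) (e : E N) (d : ℝ) {μ : ℝ} (hμ : 0 < μ) (x : E N) :
    HasDerivAt (fun μ => nl N (bub N μ (cen e d) x))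
      (μ⁻¹ * (dnl N (bub N μ (cen e d) x) * bubMu N μ (cen e d) x)) μ := by
  have h1 := (hasDerivAt_nl hN hN5 (bub N μ (cen e d) x)).comp μ (bub_mu60 e d hμ x)
  have h2 : dnl N (bub N μ (cen e d) x) * (μ⁻¹ * bubMu N μ (cen e d) x) =
      μ⁻¹ * (dnl N (bub N μ (cen e d) x) * bubMu N μ (cen e d) x) := by ring
  rw [h2] at h1
  exact h1

theorem nl_d60 (hN : 3 ≤ N) (hN5 : N ≤ 5) (e : E N) (d : ℝ) {μ : ℝ} (hμ : 0 < μ) (x : E N) :
    HasDerivAt (fun d => nl N (bub N μ (cen e d) x))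
      (-(μ⁻¹) * (dnl N (bub N μ (cen e d) x) * bubXi N e μ (cen e d) x)) d := by
  have h1 := (hasDerivAt_nl hN hN5 (bub N μ (cen e d) x)).comp d (bub_d60 e d hμ x)
  have h2 : dnl N (bub N μ (cen e d) x) * (-(μ⁻¹) * bubXi N e μ (cen e d) x) =
      -(μ⁻¹) * (dnl N (bub N μ (cen e d) x) * bubXi N e μ (cen e d) x) := by ring
  rw [h2] at h1
  exact h1

/-- the constant of the bounds -/
def KK60 (N : ℕ) : ℝ := 2 * ((pm N + 1) * cc N) * (3 + 2 * ((pm N + 1) * cc N))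

theorem kap_pos60 (hN : 3 ≤ N) : 0 < (pm N + 1) * cc N := by
  have h1 := BI.pm_pos hN
  have h2 := BI.cc_pos hN
  positivity

theorem nl_nonneg60 (hN : 3 ≤ N) (e : E N) (d : ℝ) {μ : ℝ} (hμ : 0 < μ) (x : E N) :
    0 < nl N (bub N μ (cen e d) x) := by
  have h := bub_pos hN hμ (cen e d) x
  unfold nl
  have h2 : 0 < |bub N μ (cen e d) x| := abs_pos.2 h.ne'
  positivity

/-- general bound: `F = κ f nl(U)`, `F' = κ (f' nl(U) + f (nl U)')` -/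
theorem prod_bound60 (hN : 3 ≤ N) (e : E N) (d : ℝ) {μ : ℝ} (hμ : 0 < μ) (x : E N)
    {κ f f' V : ℝ} (hκ : |κ| ≤ 2 * ((pm N + 1) * cc N)) (hf : |f| ≤ 1) (hf' : |f'| ≤ 3 / μ)
    (hV : |V| ≤ 2 * ((pm N + 1) * cc N) * (μ⁻¹ * nl N (bub N μ (cen e d) x))) :
    |κ * (f' * nl N (bub N μ (cen e d) x) + f * V)| ≤
      KK60 N / μ * nl N (bub N μ (cen e d) x) := by
  have hk := kap_pos60 hN
  have hU := nl_nonneg60 hN e d hμ x
  set n := nl N (bub N μ (cen e d) x) with hn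
  set k := (pm N + 1) * cc N with hkdef
  have h1 : |f' * n + f * V| ≤ 3 / μ * n + 1 * (2 * k * (μ⁻¹ * n)) := by
    refine (abs_add_le _ _).trans (add_le_add ?_ ?_)
    · rw [abs_mul, abs_of_pos hU]
      exact mul_le_mul_of_nonneg_right hf' hU.le
    · rw [abs_mul]
      exact mul_le_mul hf hV (abs_nonneg _) zero_le_one
  rw [abs_mul]
  calc |κ| * |f' * n + f * V| ≤ (2 * k) * (3 / μ * n + 1 * (2 * k * (μ⁻¹ * n))) :=
        mul_le_mul hκ h1 (abs_nonneg _) (by positivity)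
    _ = KK60 N / μ * n := by
        rw [KK60, ← hkdef]
        field_simp

theorem nlmu_bound60 (hN : 3 ≤ N) (e : E N) (he : ‖e‖ = 1) (d : ℝ) {μ : ℝ} (hμ : 0 < μ)
    (x : E N) : |μ⁻¹ * (dnl N (bub N μ (cen e d) x) * bubMu N μ (cen e d) x)| ≤
      2 * ((pm N + 1) * cc N) * (μ⁻¹ * nl N (bub N μ (cen e d) x)) := by
  have hb := bounds60 he d hμ x
  have hk := kap_pos60 hN
  have hU := nl_nonneg60 hN e d hμ x
  rw [dM_eq60 hN, abs_mul μ⁻¹, abs_mul ((pm N + 1) * cc N), abs_mul (fA60 e d μ x),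
    abs_of_pos (inv_pos.2 hμ), abs_of_pos hk, abs_of_pos hU]
  have h1 : |fA60 e d μ x| * nl N (bub N μ (cen e d) x) ≤ 1 * nl N (bub N μ (cen e d) x) :=
    mul_le_mul_of_nonneg_right hb.1 hU.le
  have h2 : 0 ≤ μ⁻¹ * ((pm N + 1) * cc N) := by positivity
  calc μ⁻¹ * ((pm N + 1) * cc N * (|fA60 e d μ x| * nl N (bub N μ (cen e d) x)))
      = μ⁻¹ * ((pm N + 1) * cc N) * (|fA60 e d μ x| * nl N (bub N μ (cen e d) x)) := by ring
    _ ≤ μ⁻¹ * ((pm N + 1) * cc N) * (1 * nl N (bub N μ (cen e d) x)) :=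
        mul_le_mul_of_nonneg_left h1 h2
    _ ≤ 2 * ((pm N + 1) * cc N) * (μ⁻¹ * nl N (bub N μ (cen e d) x)) := by
        have h3 : 0 ≤ μ⁻¹ * ((pm N + 1) * cc N) * nl N (bub N μ (cen e d) x) := by positivity
        linarith

theorem nld_bound60 (hN : 3 ≤ N) (e : E N) (he : ‖e‖ = 1) (d : ℝ) {μ : ℝ} (hμ : 0 < μ)
    (x : E N) : |-(μ⁻¹) * (dnl N (bub N μ (cen e d) x) * bubXi N e μ (cen e d) x)| ≤
      2 * ((pm N + 1) * cc N) * (μ⁻¹ * nl N (bub N μ (cen e d) x)) := by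
  have hb := bounds60 he d hμ x
  have hk := kap_pos60 hN
  have hU := nl_nonneg60 hN e d hμ x
  rw [dX_eq60 hN, neg_mul, abs_neg, abs_mul μ⁻¹, abs_mul (2 * ((pm N + 1) * cc N)),
    abs_mul (fB60 e d μ x), abs_of_pos (inv_pos.2 hμ),
    abs_of_pos (by positivity : (0:ℝ) < 2 * ((pm N + 1) * cc N)), abs_of_pos hU]
  have h1 : |fB60 e d μ x| * nl N (bub N μ (cen e d) x) ≤ 1 * nl N (bub N μ (cen e d) x) :=
    mul_le_mul_of_nonneg_right (hb.2.1.trans (by norm_num)) hU.le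
  have h2 : 0 ≤ μ⁻¹ * (2 * ((pm N + 1) * cc N)) := by positivity
  calc μ⁻¹ * (2 * ((pm N + 1) * cc N) * (|fB60 e d μ x| * nl N (bub N μ (cen e d) x)))
      = μ⁻¹ * (2 * ((pm N + 1) * cc N)) * (|fB60 e d μ x| * nl N (bub N μ (cen e d) x)) := by
        ring
    _ ≤ μ⁻¹ * (2 * ((pm N + 1) * cc N)) * (1 * nl N (bub N μ (cen e d) x)) :=
        mul_le_mul_of_nonneg_left h1 h2
    _ = 2 * ((pm N + 1) * cc N) * (μ⁻¹ * nl N (bub N μ (cen e d) x)) := by ring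

/-- derivatives of the products with their bounds -/
theorem dprod60 (hN : 3 ≤ N) (hN5 : N ≤ 5) {e : E N} (he : ‖e‖ = 1) (d : ℝ) {μ : ℝ} (hμ : 0 < μ)
    (x : E N) :
    (∃ v, HasDerivAt (fun μ => dnl N (bub N μ (cen e d) x) * bubMu N μ (cen e d) x) v μ ∧
      |v| ≤ KK60 N / μ * nl N (bub N μ (cen e d) x)) ∧
    (∃ v, HasDerivAt (fun d => dnl N (bub N μ (cen e d) x) * bubMu N μ (cen e d) x) v d ∧
      |v| ≤ KK60 N / μ * nl N (bub N μ (cen e d) x)) ∧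
    (∃ v, HasDerivAt (fun μ => dnl N (bub N μ (cen e d) x) * bubXi N e μ (cen e d) x) v μ ∧
      |v| ≤ KK60 N / μ * nl N (bub N μ (cen e d) x)) ∧
    (∃ v, HasDerivAt (fun d => dnl N (bub N μ (cen e d) x) * bubXi N e μ (cen e d) x) v d ∧
      |v| ≤ KK60 N / μ * nl N (bub N μ (cen e d) x)) := by
  have hb := bounds60 he d hμ x
  have hk := kap_pos60 hN
  have hk1 : |(pm N + 1) * cc N| ≤ 2 * ((pm N + 1) * cc N) := by
    rw [abs_of_pos hk]; linarith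
  have hk2 : |2 * ((pm N + 1) * cc N)| ≤ 2 * ((pm N + 1) * cc N) := by
    rw [abs_of_pos (by positivity)]
  have hle : (1 : ℝ) / μ ≤ 3 / μ := by gcongr; norm_num
  have hle2 : (2 : ℝ) / μ ≤ 3 / μ := by gcongr; norm_num
  have hB1 : |fB60 e d μ x| ≤ 1 := hb.2.1.trans (by norm_num)
  refine ⟨⟨_, ?_, prod_bound60 hN e d hμ x hk1 hb.1 (hb.2.2.1.trans hle)
      (nlmu_bound60 hN e he d hμ x)⟩,
    ⟨_, ?_, prod_bound60 hN e d hμ x hk1 hb.1 (hb.2.2.2.1.trans hle2)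
      (nld_bound60 hN e he d hμ x)⟩,
    ⟨_, ?_, prod_bound60 hN e d hμ x hk2 hB1 (hb.2.2.2.2.1.trans hle)
      (nlmu_bound60 hN e he d hμ x)⟩,
    ⟨_, ?_, prod_bound60 hN e d hμ x hk2 hB1 hb.2.2.2.2.2
      (nld_bound60 hN e he d hμ x)⟩⟩
  · simp_rw [dM_eq60 hN]
    have h1 := ((fA_mu60 e d hμ x).fun_mul (nl_mu60 hN hN5 e d hμ x)).const_mul
      ((pm N + 1) * cc N)
    rw [dM_eq60 hN] at h1
    exact h1
  · simp_rw [dM_eq60 hN]
    exact ((fA_d60 e d hμ x).fun_mul (nl_d60 hN hN5 e d hμ x)).const_mul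
      ((pm N + 1) * cc N)
  · simp_rw [dX_eq60 hN]
    exact ((fB_mu60 e d hμ x).fun_mul (nl_mu60 hN hN5 e d hμ x)).const_mul
      (2 * ((pm N + 1) * cc N))
  · simp_rw [dX_eq60 hN]
    have h1 := ((fB_d60 he d hμ x).fun_mul (nl_d60 hN hN5 e d hμ x)).const_mul
      (2 * ((pm N + 1) * cc N))
    rw [dX_eq60 hN] at h1
    exact h1

/-! ### Smoothness and axiality -/

theorem smooth_den60 (e : E N) :
    ContDiff ℝ 2 (fun z : (ℝ × ℝ) × E N => den60 e z.1.1 z.1.2 z.2) := by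
  unfold den60 cen
  refine ContDiff.add (by fun_prop) (ContDiff.norm_sq ℝ ?_)
  fun_prop

theorem isOpen_Q60 : IsOpen {q : ℝ × ℝ | 0 < q.2} := isOpen_lt continuous_const continuous_snd

theorem smooth_bub60 (e : E N) :
    ContDiffOn ℝ 2 (fun z : (ℝ × ℝ) × E N => bub N z.1.2 (cen e z.1.1) z.2)
      ({q : ℝ × ℝ | 0 < q.2} ×ˢ univ) := by
  intro z hz
  have hz' : 0 < z.1.2 := hz.1
  refine ContDiffAt.contDiffWithinAt ?_
  have h1 : ContDiffAt ℝ 2 (fun z : (ℝ × ℝ) × E N => z.1.2 ^ cc N) z :=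
    ContDiffAt.rpow_const_of_ne (by fun_prop) hz'.ne'
  have h2 : ContDiffAt ℝ 2 (fun z : (ℝ × ℝ) × E N => (den60 e z.1.1 z.1.2 z.2) ^ (-cc N)) z :=
    ContDiffAt.rpow_const_of_ne (smooth_den60 e).contDiffAt
      (den60_pos e z.1.1 hz' z.2).ne'
  exact (contDiffAt_const.mul h1).mul h2

theorem smooth_nl60 (hN : 3 ≤ N) (e : E N) :
    ContDiffOn ℝ 2 (fun z : (ℝ × ℝ) × E N => nl N (bub N z.1.2 (cen e z.1.1) z.2))
      ({q : ℝ × ℝ | 0 < q.2} ×ˢ univ) := by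
  have h1 : ContDiffOn ℝ 2 (fun z : (ℝ × ℝ) × E N =>
      (bub N z.1.2 (cen e z.1.1) z.2) ^ (pm N + 1)) ({q : ℝ × ℝ | 0 < q.2} ×ˢ univ) := by
    intro z hz
    exact (smooth_bub60 e z hz).rpow_const_of_ne (bub_pos hN hz.1 _ _).ne'
  refine h1.congr fun z hz => ?_
  exact BI.nl_bub hN hz.1 _ _

theorem smooth_fA60 (e : E N) :
    ContDiffOn ℝ 2 (fun z : (ℝ × ℝ) × E N => fA60 e z.1.1 z.1.2 z.2)
      ({q : ℝ × ℝ | 0 < q.2} ×ˢ univ) := by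
  unfold fA60
  refine ContDiffOn.div ?_ (smooth_den60 e).contDiffOn
    (fun z hz => (den60_pos e z.1.1 hz.1 z.2).ne')
  refine ContDiff.contDiffOn (ContDiff.sub (ContDiff.norm_sq ℝ ?_) (by fun_prop))
  unfold cen
  fun_prop

theorem smooth_fB60 (e : E N) :
    ContDiffOn ℝ 2 (fun z : (ℝ × ℝ) × E N => fB60 e z.1.1 z.1.2 z.2)
      ({q : ℝ × ℝ | 0 < q.2} ×ˢ univ) := by
  unfold fB60
  refine ContDiffOn.div ?_ (smooth_den60 e).contDiffOn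
    (fun z hz => (den60_pos e z.1.1 hz.1 z.2).ne')
  refine ContDiff.contDiffOn (ContDiff.mul (by fun_prop) (ContDiff.inner ℝ ?_ contDiff_const))
  unfold cen
  fun_prop

theorem smooth_dM60 (hN : 3 ≤ N) (e : E N) :
    ContDiffOn ℝ 2 (fun z : (ℝ × ℝ) × E N =>
      dnl N (bub N z.1.2 (cen e z.1.1) z.2) * bubMu N z.1.2 (cen e z.1.1) z.2)
      ({q : ℝ × ℝ | 0 < q.2} ×ˢ univ) := by
  simp_rw [dM_eq60 hN]
  exact contDiffOn_const.mul ((smooth_fA60 e).mul (smooth_nl60 hN e))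

theorem smooth_dX60 (hN : 3 ≤ N) (e : E N) :
    ContDiffOn ℝ 2 (fun z : (ℝ × ℝ) × E N =>
      dnl N (bub N z.1.2 (cen e z.1.1) z.2) * bubXi N e z.1.2 (cen e z.1.1) z.2)
      ({q : ℝ × ℝ | 0 < q.2} ×ˢ univ) := by
  simp_rw [dX_eq60 hN]
  exact contDiffOn_const.mul ((smooth_fB60 e).mul (smooth_nl60 hN e))

theorem axial_in60 {e : E N} (he : ‖e‖ = 1) (d : ℝ) :
    Axial e (fun x => ⟪x - cen e d, e⟫) := by
  refine ⟨fun z => z.2 - (1 - d), by fun_prop, Eventually.of_forall fun x => ?_⟩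
  simp only [cen, inner_sub_left, inner_smul_left, real_inner_self_eq_norm_sq, he]
  simp

theorem axial_sq60 {e : E N} (he : ‖e‖ = 1) (d : ℝ) :
    Axial e (fun x => ‖x - cen e d‖ ^ 2) := by
  refine ⟨fun z => z.1 ^ 2 - 2 * (1 - d) * z.2 + (1 - d) ^ 2, by fun_prop,
    Eventually.of_forall fun x => ?_⟩
  simp only
  rw [norm_sub_sq_real, cen, inner_smul_right, norm_smul, he, Real.norm_eq_abs, mul_one, sq_abs]
  ring

theorem axial_den60 {e : E N} (he : ‖e‖ = 1) (d μ : ℝ) : Axial e (den60 e d μ) :=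
  axial_add (axial_const e (μ ^ 2)) (axial_sq60 he d)

theorem axial_nl60 {e : E N} (he : ‖e‖ = 1) (d μ : ℝ) :
    Axial e (fun x => nl N (bub N μ (cen e d) x)) := by
  refine axial_comp (axial_den60 he d μ) (axial_den60 he d μ)
    (k := fun p => nl N (alN N * μ ^ cc N * p.1 ^ (-cc N))) ?_
  unfold nl
  have h1 : Measurable (fun p : ℝ × ℝ => alN N * μ ^ cc N * p.1 ^ (-cc N)) :=
    (measurable_fst.pow_const _).const_mul _
  exact ((measurable_norm.comp h1).pow_const _).mul h1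

theorem axial_fA60 {e : E N} (he : ‖e‖ = 1) (d μ : ℝ) : Axial e (fun x => fA60 e d μ x) :=
  axial_comp (axial_sq60 he d) (axial_den60 he d μ) (k := fun p => (p.1 - μ ^ 2) / p.2)
    ((measurable_fst.sub_const _).div measurable_snd)

theorem axial_fB60 {e : E N} (he : ‖e‖ = 1) (d μ : ℝ) : Axial e (fun x => fB60 e d μ x) :=
  axial_comp (axial_in60 he d) (axial_den60 he d μ) (k := fun p => (μ * p.1) / p.2)
    ((measurable_fst.const_mul _).div measurable_snd)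

theorem axial_dM60 (hN : 3 ≤ N) {e : E N} (he : ‖e‖ = 1) (d μ : ℝ) :
    Axial e (fun x => dnl N (bub N μ (cen e d) x) * bubMu N μ (cen e d) x) := by
  simp_rw [dM_eq60 hN]
  exact axial_smul (axial_comp (axial_fA60 he d μ) (axial_nl60 he d μ)
    (k := fun p => p.1 * p.2) (measurable_fst.mul measurable_snd)) _

theorem axial_dX60 (hN : 3 ≤ N) {e : E N} (he : ‖e‖ = 1) (d μ : ℝ) :
    Axial e (fun x => dnl N (bub N μ (cen e d) x) * bubXi N e μ (cen e d) x) := by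
  simp_rw [dX_eq60 hN]
  exact axial_smul (axial_comp (axial_fB60 he d μ) (axial_nl60 he d μ)
    (k := fun p => p.1 * p.2) (measurable_fst.mul measurable_snd)) _

/-! ### Final -/

theorem fderiv_dir60 {Q : Set (ℝ × ℝ)} (hQ : IsOpen Q) {H : ℝ × ℝ → E N → ℝ}
    (hH : ContDiffOn ℝ 2 (fun z : (ℝ × ℝ) × E N => H z.1 z.2) (Q ×ˢ univ)) {q : ℝ × ℝ}
    (hq : q ∈ Q) (x : E N) :
    (∀ v, HasDerivAt (fun t => H (t, q.2) x) v q.1 → fderiv ℝ (fun q => H q x) q (1, 0) = v) ∧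
    (∀ v, HasDerivAt (fun t => H (q.1, t) x) v q.2 → fderiv ℝ (fun q => H q x) q (0, 1) = v) := by
  have hO : IsOpen (Q ×ˢ (univ : Set (E N))) := hQ.prod isOpen_univ
  have h1 : DifferentiableAt ℝ (fun z : (ℝ × ℝ) × E N => H z.1 z.2) (q, x) :=
    (hH.contDiffAt (hO.mem_nhds ⟨hq, mem_univ x⟩)).differentiableAt (by simp)
  have h2 : DifferentiableAt ℝ (fun q => H q x) q :=
    DifferentiableAt.comp (g := fun z : (ℝ × ℝ) × E N => H z.1 z.2)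
      (f := fun q : ℝ × ℝ => ((q, x) : (ℝ × ℝ) × E N)) q h1
      (differentiableAt_id.prodMk (differentiableAt_const x))
  constructor
  · intro v hv
    have h3 : HasDerivAt (fun t : ℝ => ((t, q.2) : ℝ × ℝ)) (1, 0) q.1 :=
      (hasDerivAt_id q.1).prodMk (hasDerivAt_const q.1 q.2)
    have h4 := h2.hasFDerivAt.comp_hasDerivAt q.1 h3
    exact h4.unique hv
  · intro v hv
    have h3 : HasDerivAt (fun t : ℝ => ((q.1, t) : ℝ × ℝ)) (0, 1) q.2 :=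
      (hasDerivAt_const q.2 q.1).prodMk (hasDerivAt_id q.2)
    have h4 := h2.hasFDerivAt.comp_hasDerivAt q.2 h3
    exact h4.unique hv

theorem T_bound60 (hN : 3 ≤ N) {ρ : ℝ} (e : E N) (d : ℝ) {μ : ℝ} (hμ : 0 < μ) {g : E N → ℝ}
    (hm : Mq (td N) (ann N ρ) g)
    (hg : ∀ x, |g x| ≤ KK60 N / μ * nl N (bub N μ (cen e d) x)) :
    ‖T (ann N ρ) g‖ ≤ (SS N * KK60 N * sN N ^ (1 / td N) + 1) / μ := by
  have hK : 0 ≤ KK60 N / μ := by
    have := kap_pos60 hN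
    unfold KK60; positivity
  obtain ⟨h1, h2⟩ := Mq_nl_bub hN hμ (cen e d)
  have h3 : Mq (td N) (ann N ρ) (fun x => nl N (bub N μ (cen e d) x)) := Mq_univ58 _ h1
  have h4 : eLpNorm g (ENNReal.ofReal (td N)) (volume.restrict (ann N ρ)) ≤
      ENNReal.ofReal (KK60 N / μ) * eLpNorm (fun x => nl N (bub N μ (cen e d) x))
        (ENNReal.ofReal (td N)) (volume.restrict (ann N ρ)) := by
    refine eLpNorm_le_mul_eLpNorm_of_ae_le_mul (Eventually.of_forall fun x => ?_) _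
    rw [Real.norm_eq_abs, Real.norm_eq_abs, abs_of_pos (nl_nonneg60 hN e d hμ x)]
    exact hg x
  have h5 : nq (td N) (ann N ρ) g ≤ KK60 N / μ *
      nq (td N) (ann N ρ) (fun x => nl N (bub N μ (cen e d) x)) := by
    have h6 := ENNReal.toReal_mono (ENNReal.mul_ne_top ENNReal.ofReal_ne_top
      h3.eLpNorm_ne_top) h4
    rw [ENNReal.toReal_mul, ENNReal.toReal_ofReal hK] at h6
    exact h6
  have h7 := T_norm hN (meas_ann60 N ρ) hm
  calc ‖T (ann N ρ) g‖ ≤ SS N * nq (td N) (ann N ρ) g := h7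
    _ ≤ SS N * (KK60 N / μ * sN N ^ (1 / td N)) := by
        refine mul_le_mul_of_nonneg_left (h5.trans ?_) SS_pos.le
        exact mul_le_mul_of_nonneg_left (h2 _) hK
    _ = SS N * KK60 N * sN N ^ (1 / td N) / μ := by ring
    _ ≤ (SS N * KK60 N * sN N ^ (1 / td N) + 1) / μ := by
        gcongr
        linarith

theorem cont_fderiv60 {Q : Set (ℝ × ℝ)} (hQ : IsOpen Q) {H : ℝ × ℝ → E N → ℝ}
    (hH : ContDiffOn ℝ 2 (fun z : (ℝ × ℝ) × E N => H z.1 z.2) (Q ×ˢ univ)) {q : ℝ × ℝ}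
    (hq : q ∈ Q) (v : ℝ × ℝ) : Continuous (fun x => fderiv ℝ (fun q => H q x) q v) := by
  have hO : IsOpen (Q ×ˢ (univ : Set (E N))) := hQ.prod isOpen_univ
  have h0 : (fun x => fderiv ℝ (fun q => H q x) q v) =
      fun x => fderiv ℝ (fun z : (ℝ × ℝ) × E N => H z.1 z.2) (q, x) (v, 0) := by
    funext x
    have h1 : HasFDerivAt (fun z : (ℝ × ℝ) × E N => H z.1 z.2)
        (fderiv ℝ (fun z : (ℝ × ℝ) × E N => H z.1 z.2) (q, x)) (q, x) :=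
      ((hH.contDiffAt (hO.mem_nhds ⟨hq, mem_univ x⟩)).differentiableAt (by simp)).hasFDerivAt
    have h2 : HasFDerivAt (fun q : ℝ × ℝ => (q, x)) (ContinuousLinearMap.inl ℝ (ℝ × ℝ) (E N)) q :=
      hasFDerivAt_prodMk_left q x
    have h3 : HasFDerivAt (fun q => H q x)
        ((fderiv ℝ (fun z : (ℝ × ℝ) × E N => H z.1 z.2) (q, x)).comp
          (ContinuousLinearMap.inl ℝ (ℝ × ℝ) (E N))) q :=
      HasFDerivAt.comp (g := fun z : (ℝ × ℝ) × E N => H z.1 z.2)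
        (f := fun q : ℝ × ℝ => ((q, x) : (ℝ × ℝ) × E N)) q h1 h2
    rw [h3.fderiv]
    rfl
  rw [h0]
  have h1 : ContinuousOn (fun z => fderiv ℝ (fun z : (ℝ × ℝ) × E N => H z.1 z.2) z) (Q ×ˢ univ) :=
    hH.continuousOn_fderiv_of_isOpen hO (by norm_num)
  have h2 : Continuous (fun x : E N => ((q, x) : (ℝ × ℝ) × E N)) := by fun_prop
  have h3 := h1.comp_continuous h2 (fun x => ⟨hq, mem_univ x⟩)
  exact (ContinuousLinearMap.apply ℝ ℝ ((v, 0) : (ℝ × ℝ) × E N)).continuous.comp h3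

/-- general form: path of `T (H q)` with bounds on the partial derivatives -/
theorem path_gen60 (hN : 3 ≤ N) {ρ : ℝ} (hρ : 0 < ρ) (hρ1 : ρ < 1) {e : E N} (he : ‖e‖ = 1)
    {H : ℝ × ℝ → E N → ℝ}
    (hH : ContDiffOn ℝ 2 (fun z : (ℝ × ℝ) × E N => H z.1 z.2) ({q : ℝ × ℝ | 0 < q.2} ×ˢ univ))
    (hax : ∀ q : ℝ × ℝ, 0 < q.2 → Axial e (H q))
    (hd : ∀ q : ℝ × ℝ, 0 < q.2 → ∀ x,
      (∃ v, HasDerivAt (fun t => H (t, q.2) x) v q.1 ∧
        |v| ≤ KK60 N / q.2 * nl N (bub N q.2 (cen e q.1) x)) ∧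
      (∃ v, HasDerivAt (fun t => H (q.1, t) x) v q.2 ∧
        |v| ≤ KK60 N / q.2 * nl N (bub N q.2 (cen e q.1) x))) :
    ∃ M' : ℝ × ℝ → (ℝ × ℝ) →L[ℝ] XS e ρ, ContinuousOn M' {q | 0 < q.2} ∧
      ∀ q : ℝ × ℝ, 0 < q.2 → HasFDerivAt (fun q : ℝ × ℝ => Tx e ρ (H q)) (M' q) q ∧
        ‖M' q (1, 0)‖ ≤ (SS N * KK60 N * sN N ^ (1 / td N) + 1) / q.2 ∧
        ‖M' q (0, 1)‖ ≤ (SS N * KK60 N * sN N ^ (1 / td N) + 1) / q.2 := by
  obtain ⟨M', hM1, hM2, hM3⟩ := param_T hN hρ hρ1 he isOpen_Q60 hH hax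
  refine ⟨M', hM2, fun q hq => ⟨hM1 q hq, ?_, ?_⟩⟩
  · change ‖((M' q (1, 0) : XS e ρ) : LV N)‖ ≤ _
    rw [hM3 q hq]
    refine T_bound60 hN e q.1 hq (Mq_cont60 (cont_fderiv60 isOpen_Q60 hH hq _) _) fun x => ?_
    obtain ⟨v, hv, hvb⟩ := (hd q hq x).1
    rw [(fderiv_dir60 isOpen_Q60 hH hq x).1 v hv]
    exact hvb
  · change ‖((M' q (0, 1) : XS e ρ) : LV N)‖ ≤ _
    rw [hM3 q hq]
    refine T_bound60 hN e q.1 hq (Mq_cont60 (cont_fderiv60 isOpen_Q60 hH hq _) _) fun x => ?_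
    obtain ⟨v, hv, hvb⟩ := (hd q hq x).2
    rw [(fderiv_dir60 isOpen_Q60 hH hq x).2 v hv]
    exact hvb

theorem fd_nl1_60 (hN : 3 ≤ N) (hN5 : N ≤ 5) (e : E N) {q : ℝ × ℝ} (hq : 0 < q.2) (x : E N) :
    fderiv ℝ (fun q : ℝ × ℝ => nl N (bub N q.2 (cen e q.1) x)) q (1, 0) =
      -(q.2)⁻¹ * (dnl N (bub N q.2 (cen e q.1) x) * bubXi N e q.2 (cen e q.1) x) := by
  have h3 := (fderiv_dir60 isOpen_Q60
    (H := fun q x => nl N (bub N q.2 (cen e q.1) x)) (smooth_nl60 hN e) hq x).1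
  have h4 := nl_d60 hN hN5 e q.1 hq x
  have h5 := h3 _ h4
  exact h5

theorem fd_nl2_60 (hN : 3 ≤ N) (hN5 : N ≤ 5) (e : E N) {q : ℝ × ℝ} (hq : 0 < q.2) (x : E N) :
    fderiv ℝ (fun q : ℝ × ℝ => nl N (bub N q.2 (cen e q.1) x)) q (0, 1) =
      (q.2)⁻¹ * (dnl N (bub N q.2 (cen e q.1) x) * bubMu N q.2 (cen e q.1) x) := by
  have h3 := (fderiv_dir60 isOpen_Q60
    (H := fun q x => nl N (bub N q.2 (cen e q.1) x)) (smooth_nl60 hN e) hq x).2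
  have h4 := nl_mu60 hN hN5 e q.1 hq x
  have h5 := h3 _ h4
  exact h5

theorem cont_slice60 {Q : Set (ℝ × ℝ)} {H : ℝ × ℝ → E N → ℝ}
    (hH : ContDiffOn ℝ 2 (fun z : (ℝ × ℝ) × E N => H z.1 z.2) (Q ×ˢ univ)) {q : ℝ × ℝ}
    (hq : q ∈ Q) : Continuous (H q) := by
  have h1 : Continuous (fun x : E N => ((q, x) : (ℝ × ℝ) × E N)) := by fun_prop
  exact hH.continuousOn.comp_continuous h1 (fun x => ⟨hq, mem_univ x⟩)

theorem cont_dX60 (hN : 3 ≤ N) (e : E N) {q : ℝ × ℝ} (hq : 0 < q.2) :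
    Continuous (fun x => dnl N (bub N q.2 (cen e q.1) x) * bubXi N e q.2 (cen e q.1) x) :=
  cont_slice60 (Q := {q : ℝ × ℝ | 0 < q.2})
    (H := fun q x => dnl N (bub N q.2 (cen e q.1) x) * bubXi N e q.2 (cen e q.1) x)
    (smooth_dX60 hN e) hq

theorem cont_dM60 (hN : 3 ≤ N) (e : E N) {q : ℝ × ℝ} (hq : 0 < q.2) :
    Continuous (fun x => dnl N (bub N q.2 (cen e q.1) x) * bubMu N q.2 (cen e q.1) x) :=
  cont_slice60 (Q := {q : ℝ × ℝ | 0 < q.2})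
    (H := fun q x => dnl N (bub N q.2 (cen e q.1) x) * bubMu N q.2 (cen e q.1) x)
    (smooth_dM60 hN e) hq

theorem path_W60 (hN : 3 ≤ N) (hN5 : N ≤ 5) {ρ : ℝ} (hρ : 0 < ρ) (hρ1 : ρ < 1) {e : E N}
    (he : ‖e‖ = 1) : ∃ W' : ℝ × ℝ → (ℝ × ℝ) →L[ℝ] XS e ρ,
      ContinuousOn W' {q | 0 < q.2} ∧ ∀ q : ℝ × ℝ, 0 < q.2 →
        HasFDerivAt (fun q : ℝ × ℝ =>
          Tx e ρ (fun x => nl N (bub N q.2 (cen e q.1) x))) (W' q) q ∧
        ((W' q (1, 0) : XS e ρ) : LV N) = (-(q.2)⁻¹) • ZX e ρ q.1 q.2 ∧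
        ((W' q (0, 1) : XS e ρ) : LV N) = (q.2)⁻¹ • ZM e ρ q.1 q.2 := by
  obtain ⟨W', hW1, hW2, hW3⟩ := param_T hN hρ hρ1 he isOpen_Q60
    (H := fun q x => nl N (bub N q.2 (cen e q.1) x)) (smooth_nl60 hN e)
    (fun q _ => axial_nl60 he q.1 q.2)
  refine ⟨W', hW2, fun q hq => ⟨hW1 q hq, ?_, ?_⟩⟩
  · have h2 : (fun x => fderiv ℝ (fun q : ℝ × ℝ => nl N (bub N q.2 (cen e q.1) x)) q (1, 0)) =
        fun x => -(q.2)⁻¹ * (dnl N (bub N q.2 (cen e q.1) x) *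
          bubXi N e q.2 (cen e q.1) x) := funext fun x => fd_nl1_60 hN hN5 e hq x
    rw [hW3 q hq, h2]
    exact T_smul hN (meas_ann60 N ρ) _ (Mq_cont60 (cont_dX60 hN e hq) _)
  · have h2 : (fun x => fderiv ℝ (fun q : ℝ × ℝ => nl N (bub N q.2 (cen e q.1) x)) q (0, 1)) =
        fun x => (q.2)⁻¹ * (dnl N (bub N q.2 (cen e q.1) x) *
          bubMu N q.2 (cen e q.1) x) := funext fun x => fd_nl2_60 hN hN5 e hq x
    rw [hW3 q hq, h2]
    exact T_smul hN (meas_ann60 N ρ) _ (Mq_cont60 (cont_dM60 hN e hq) _)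

/-- the bubble and its derivatives as functions of `q = (d, μ)` -/
theorem bub_path (hN : 3 ≤ N) (hN5 : N ≤ 5) {ρ : ℝ} (hρ : 0 < ρ) (hρ1 : ρ < 1) :
    ∃ C : ℝ, 0 < C ∧ ∀ e : E N, ‖e‖ = 1 → ∃ W' M' X' : ℝ × ℝ → (ℝ × ℝ) →L[ℝ] XS e ρ,
      ContinuousOn W' {q | 0 < q.2} ∧ ContinuousOn M' {q | 0 < q.2} ∧
      ContinuousOn X' {q | 0 < q.2} ∧ ∀ q : ℝ × ℝ, 0 < q.2 →
        HasFDerivAt (fun q : ℝ × ℝ =>
          Tx e ρ (fun x => nl N (bub N q.2 (cen e q.1) x))) (W' q) q ∧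
        HasFDerivAt (fun q : ℝ × ℝ => Tx e ρ (fun x =>
          dnl N (bub N q.2 (cen e q.1) x) * bubMu N q.2 (cen e q.1) x)) (M' q) q ∧
        HasFDerivAt (fun q : ℝ × ℝ => Tx e ρ (fun x =>
          dnl N (bub N q.2 (cen e q.1) x) * bubXi N e q.2 (cen e q.1) x)) (X' q) q ∧
        ((W' q (1, 0) : XS e ρ) : LV N) = (-(q.2)⁻¹) • ZX e ρ q.1 q.2 ∧
        ((W' q (0, 1) : XS e ρ) : LV N) = (q.2)⁻¹ • ZM e ρ q.1 q.2 ∧
        ‖M' q (1, 0)‖ ≤ C / q.2 ∧ ‖M' q (0, 1)‖ ≤ C / q.2 ∧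
        ‖X' q (1, 0)‖ ≤ C / q.2 ∧ ‖X' q (0, 1)‖ ≤ C / q.2 := by
  have hk := kap_pos60 hN
  have hKK : 0 ≤ KK60 N := by unfold KK60; positivity
  refine ⟨SS N * KK60 N * sN N ^ (1 / td N) + 1, ?_, ?_⟩
  · have h1 : 0 ≤ SS N * KK60 N * sN N ^ (1 / td N) :=
      mul_nonneg (mul_nonneg SS_pos.le hKK) (Real.rpow_nonneg (sN_pos hN).le _)
    linarith
  intro e he
  obtain ⟨W', hW1, hW2⟩ := path_W60 hN hN5 hρ hρ1 he
  obtain ⟨M', hM1, hM2⟩ := path_gen60 hN hρ hρ1 he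
    (H := fun q x => dnl N (bub N q.2 (cen e q.1) x) * bubMu N q.2 (cen e q.1) x)
    (smooth_dM60 hN e) (fun q _ => axial_dM60 hN he q.1 q.2)
    (fun q hq x => ⟨(dprod60 hN hN5 he q.1 hq x).2.1, (dprod60 hN hN5 he q.1 hq x).1⟩)
  obtain ⟨X', hX1, hX2⟩ := path_gen60 hN hρ hρ1 he
    (H := fun q x => dnl N (bub N q.2 (cen e q.1) x) * bubXi N e q.2 (cen e q.1) x)
    (smooth_dX60 hN e) (fun q _ => axial_dX60 hN he q.1 q.2)
    (fun q hq x => ⟨(dprod60 hN hN5 he q.1 hq x).2.2.2, (dprod60 hN hN5 he q.1 hq x).2.2.1⟩)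
  exact ⟨W', M', X', hW1, hM1, hX1, fun q hq => ⟨(hW2 q hq).1, (hM2 q hq).1, (hX2 q hq).1,
    (hW2 q hq).2.1, (hW2 q hq).2.2, (hM2 q hq).2.1, (hM2 q hq).2.2, (hX2 q hq).2.1,
    (hX2 q hq).2.2⟩⟩

end Pool.Agent.helper13.BN
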