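import Pool.Agent.helper68.BN.BubInt2
import Pool.Agent.helper58.BN.Solve
import Pool.Agent.helper22.BN.AxSp
import Pool.Agent.helper41.BN.Pw
import Pool.Agent.helper13.BN.Defs3
import Pool.Agent.helper91.BN.TAx

set_option autoImplicit false

/-!
# MP_94a57f_an, module D2: differentiability of `q ↦ T (H q)`
-/

open MeasureTheory Filter Topology Set Metric
open scoped ContDiff Gradient RealInnerProductSpace ENNReal

noncomputable section
namespace Pool.Agent.helper13.BN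
variable {N : ℕ}

theorem meas_ann60 (N : ℕ) (ρ : ℝ) : MeasurableSet (ann N ρ) := by
  have h1 : ann N ρ = (fun x : E N => ‖x‖) ⁻¹' Ioo ρ 1 := rfl
  rw [h1]
  exact measurable_norm measurableSet_Ioo

theorem ann_sub_ball60 (N : ℕ) (ρ : ℝ) : ann N ρ ⊆ ball 0 1 := by
  intro x hx
  rw [mem_ball_zero_iff]
  exact hx.2

theorem ann_sub_closed60 (N : ℕ) (ρ : ℝ) : ann N ρ ⊆ closedBall 0 1 :=
  (ann_sub_ball60 N ρ).trans ball_subset_closedBall

theorem axial_ind60 {e : E N} {ρ : ℝ} {g : E N → ℝ} (hg : Axial e g) :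
    Axial e ((ann N ρ).indicator g) := by
  obtain ⟨k, hk, hx⟩ := hg
  refine ⟨({z : ℝ × ℝ | ρ < z.1 ∧ z.1 < 1}).indicator k, hk.indicator ?_, ?_⟩
  · have h1 : {z : ℝ × ℝ | ρ < z.1 ∧ z.1 < 1} = (fun z : ℝ × ℝ => z.1) ⁻¹' Ioo ρ 1 := rfl
    rw [h1]
    exact measurable_fst measurableSet_Ioo
  · filter_upwards [hx] with x hx
    by_cases h : x ∈ ann N ρ
    · rw [indicator_of_mem h, indicator_of_mem (show ((‖x‖, ⟪x, e⟫) : ℝ × ℝ) ∈ _ from h), hx]
    · rw [indicator_of_notMem h,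
        indicator_of_notMem (show ((‖x‖, ⟪x, e⟫) : ℝ × ℝ) ∉ _ from h)]

/-- the constant in the bound of `T` on bounded functions -/
def VV60 (N : ℕ) (ρ : ℝ) : ℝ :=
  ((volume.restrict (ann N ρ)) univ ^ (ENNReal.ofReal (td N)).toReal⁻¹).toReal

theorem VV60_nonneg (N : ℕ) (ρ : ℝ) : 0 ≤ VV60 N ρ := ENNReal.toReal_nonneg

theorem vol_ann60 (N : ℕ) (ρ : ℝ) : (volume.restrict (ann N ρ)) univ < ⊤ := by
  rw [Measure.restrict_apply_univ]
  exact (measure_mono (ann_sub_ball60 N ρ)).trans_lt measure_ball_lt_top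

theorem Mq_bdd60 {ρ : ℝ} {g : E N → ℝ} {K : ℝ}
    (hm : AEStronglyMeasurable g (volume.restrict (ann N ρ)))
    (hK : ∀ x ∈ ann N ρ, |g x| ≤ K) (q : ℝ) : Mq q (ann N ρ) g := by
  have : IsFiniteMeasure (volume.restrict (ann N ρ)) := ⟨vol_ann60 N ρ⟩
  exact MemLp.of_bound hm K ((ae_restrict_iff' (meas_ann60 N ρ)).2 (Eventually.of_forall hK))

theorem nq_bdd60 {ρ : ℝ} {g : E N → ℝ} {K : ℝ} (hK0 : 0 ≤ K)
    (hK : ∀ x ∈ ann N ρ, |g x| ≤ K) : nq (td N) (ann N ρ) g ≤ VV60 N ρ * K := by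
  have h1 := eLpNorm_le_of_ae_bound (p := ENNReal.ofReal (td N))
    ((ae_restrict_iff' (meas_ann60 N ρ)).2 (Eventually.of_forall hK) :
      ∀ᵐ x ∂(volume.restrict (ann N ρ)), ‖g x‖ ≤ K)
  have h2 : ((volume.restrict (ann N ρ)) univ ^ (ENNReal.ofReal (td N)).toReal⁻¹) < ⊤ :=
    ENNReal.rpow_lt_top_of_nonneg (inv_nonneg.2 ENNReal.toReal_nonneg) (vol_ann60 N ρ).ne
  have h3 := ENNReal.toReal_mono (ENNReal.mul_ne_top h2.ne ENNReal.ofReal_ne_top) h1
  rw [ENNReal.toReal_mul, ENNReal.toReal_ofReal hK0] at h3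
  exact h3

theorem T_bdd60 (hN : 3 ≤ N) {ρ : ℝ} {g : E N → ℝ} {K : ℝ} (hK0 : 0 ≤ K)
    (hm : AEStronglyMeasurable g (volume.restrict (ann N ρ)))
    (hK : ∀ x ∈ ann N ρ, |g x| ≤ K) : ‖T (ann N ρ) g‖ ≤ SS N * VV60 N ρ * K := by
  have h1 := T_norm hN (meas_ann60 N ρ) (Mq_bdd60 hm hK (td N))
  have h2 := nq_bdd60 hK0 hK
  calc ‖T (ann N ρ) g‖ ≤ SS N * nq (td N) (ann N ρ) g := h1
    _ ≤ SS N * (VV60 N ρ * K) := mul_le_mul_of_nonneg_left h2 SS_pos.le
    _ = SS N * VV60 N ρ * K := by ring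

/-- continuous functions -/
theorem Mq_cont60 {ρ : ℝ} {g : E N → ℝ} (hg : Continuous g) (q : ℝ) : Mq q (ann N ρ) g := by
  obtain ⟨K, hK⟩ := (isCompact_closedBall (0 : E N) 1).exists_bound_of_continuousOn
    hg.continuousOn
  exact Mq_bdd60 hg.aestronglyMeasurable (fun x hx => hK x (ann_sub_closed60 N ρ hx)) q

theorem Tx_coe60 {ρ : ℝ} {e : E N} {g : E N → ℝ} (h : T (ann N ρ) g ∈ XS e ρ) :
    ((Tx e ρ g : XS e ρ) : LV N) = T (ann N ρ) g := by
  rw [Tx, dif_pos h]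

theorem param_T (hN : 3 ≤ N) {ρ : ℝ} (hρ : 0 < ρ) (hρ1 : ρ < 1) {e : E N} (he : ‖e‖ = 1)
    {H : ℝ × ℝ → E N → ℝ} {Q : Set (ℝ × ℝ)} (hQ : IsOpen Q)
    (hH : ContDiffOn ℝ 2 (fun z : (ℝ × ℝ) × E N => H z.1 z.2) (Q ×ˢ univ))
    (hax : ∀ q ∈ Q, Axial e (H q)) :
    ∃ U' : ℝ × ℝ → (ℝ × ℝ) →L[ℝ] XS e ρ,
      (∀ q ∈ Q, HasFDerivAt (fun q => Tx e ρ (H q)) (U' q) q) ∧ ContinuousOn U' Q ∧
      ∀ q ∈ Q, ∀ v : ℝ × ℝ,
        ((U' q v : XS e ρ) : LV N) = T (ann N ρ) (fun x => fderiv ℝ (fun q => H q x) q v) := by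
  classical
  set Hu : (ℝ × ℝ) × E N → ℝ := fun z => H z.1 z.2 with hHu
  have hO : IsOpen (Q ×ˢ (univ : Set (E N))) := hQ.prod isOpen_univ
  set D : ℝ × ℝ → E N → (ℝ × ℝ) →L[ℝ] ℝ := fun q x =>
    (fderiv ℝ Hu (q, x)).comp (ContinuousLinearMap.inl ℝ (ℝ × ℝ) (E N)) with hDdef
  have hD : ∀ q ∈ Q, ∀ x, HasFDerivAt (fun q => H q x) (D q x) q := by
    intro q hq x
    have h1 : HasFDerivAt Hu (fderiv ℝ Hu (q, x)) (q, x) :=
      ((hH.contDiffAt (hO.mem_nhds ⟨hq, mem_univ x⟩)).differentiableAt (by simp)).hasFDerivAt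
    have h2 : HasFDerivAt (fun q : ℝ × ℝ => (q, x)) (ContinuousLinearMap.inl ℝ (ℝ × ℝ) (E N)) q :=
      hasFDerivAt_prodMk_left q x
    exact h1.comp q h2
  have hDcont : ContinuousOn (fun z : (ℝ × ℝ) × E N => D z.1 z.2) (Q ×ˢ univ) := by
    have h1 : ContinuousOn (fun z => fderiv ℝ Hu z) (Q ×ˢ univ) :=
      hH.continuousOn_fderiv_of_isOpen hO (by norm_num)
    exact (((ContinuousLinearMap.compL ℝ (ℝ × ℝ) ((ℝ × ℝ) × E N) ℝ).flip
      (ContinuousLinearMap.inl ℝ (ℝ × ℝ) (E N))).continuous.comp_continuousOn h1)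
  have hDx : ∀ q ∈ Q, Continuous (D q) := by
    intro q hq
    have h1 : Continuous (fun x : E N => ((q, x) : (ℝ × ℝ) × E N)) := by fun_prop
    exact hDcont.comp_continuous h1 (fun x => ⟨hq, mem_univ x⟩)
  have hHx : ∀ q ∈ Q, Continuous (H q) := by
    intro q hq
    have h1 : Continuous (fun x : E N => ((q, x) : (ℝ × ℝ) × E N)) := by fun_prop
    exact hH.continuousOn.comp_continuous h1 (fun x => ⟨hq, mem_univ x⟩)
  have hDv : ∀ q ∈ Q, ∀ v, Continuous (fun x => D q x v) := by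
    intro q hq v
    exact (ContinuousLinearMap.apply ℝ ℝ v).continuous.comp (hDx q hq)
  -- axiality of the derivative
  have haxD : ∀ q ∈ Q, ∀ v, Axial e (fun x => D q x v) := by
    intro q hq v
    have h1 : ∀ᶠ n : ℕ in atTop, q + ((n : ℝ))⁻¹ • v ∈ Q := by
      have h2 : Tendsto (fun n : ℕ => q + ((n : ℝ))⁻¹ • v) atTop (𝓝 (q + (0 : ℝ) • v)) :=
        tendsto_const_nhds.add
          ((tendsto_inv_atTop_zero.comp tendsto_natCast_atTop_atTop).smul_const v)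
      rw [zero_smul, add_zero] at h2
      exact h2.eventually (hQ.mem_nhds hq)
    obtain ⟨n₀, hn₀⟩ := eventually_atTop.1 h1
    refine axial_lim_ae (h := fun n x => ((n + n₀ : ℕ) : ℝ) *
      (H (q + (((n + n₀ : ℕ) : ℝ))⁻¹ • v) x + (-1) * H q x)) (fun n => ?_) ?_
    · exact axial_smul (axial_add (hax _ (hn₀ _ (Nat.le_add_left _ _)))
        (axial_smul (hax q hq) (-1))) _
    · refine Eventually.of_forall fun x => ?_
      have h3 : Tendsto (fun n : ℕ => ‖((n + n₀ : ℕ) : ℝ)‖) atTop atTop := by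
        refine tendsto_norm_atTop_atTop.comp ?_
        exact tendsto_natCast_atTop_atTop.comp (tendsto_add_atTop_nat n₀)
      have h4 := (hD q hq x).lim v h3
      refine h4.congr fun n => ?_
      rw [smul_eq_mul]
      ring
  have hmem : ∀ q ∈ Q, T (ann N ρ) (H q) ∈ XS e ρ := fun q hq =>
    T_axial hN hρ hρ1 he (Mq_cont60 (hHx q hq) _) (axial_ind60 (hax q hq))
  have hmemD : ∀ q ∈ Q, ∀ v, T (ann N ρ) (fun x => D q x v) ∈ XS e ρ := fun q hq v =>
    T_axial hN hρ hρ1 he (Mq_cont60 (hDv q hq v) _) (axial_ind60 (haxD q hq v))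
  -- the derivative
  let Ul : ∀ q, q ∈ Q → (ℝ × ℝ) →ₗ[ℝ] XS e ρ := fun q hq =>
    { toFun := fun v => ⟨T (ann N ρ) (fun x => D q x v), hmemD q hq v⟩
      map_add' := by
        intro v w
        apply Subtype.ext
        rw [Submodule.coe_add]
        have h1 : (fun x => D q x (v + w)) = fun x => D q x v + D q x w := by
          funext x; rw [map_add]
        simp only [h1]
        exact T_add hN (meas_ann60 N ρ) (Mq_cont60 (hDv q hq v) _) (Mq_cont60 (hDv q hq w) _)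
      map_smul' := by
        intro c v
        apply Subtype.ext
        rw [Submodule.coe_smul]
        have h1 : (fun x => D q x (c • v)) = fun x => c * D q x v := by
          funext x; rw [map_smul, smul_eq_mul]
        simp only [h1]
        exact T_smul hN (meas_ann60 N ρ) c (Mq_cont60 (hDv q hq v) _) }
  let U' : ℝ × ℝ → (ℝ × ℝ) →L[ℝ] XS e ρ := fun q =>
    if hq : q ∈ Q then LinearMap.toContinuousLinearMap (Ul q hq) else 0
  have hU' : ∀ q ∈ Q, ∀ v, ((U' q v : XS e ρ) : LV N) = T (ann N ρ) (fun x => D q x v) := by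
    intro q hq v
    simp only [U', dif_pos hq]
    rfl
  -- uniform continuity
  have htube : ∀ q ∈ Q, ∀ ε > 0, ∃ δ > 0, ∀ q' ∈ ball q δ, q' ∈ Q ∧
      ∀ x ∈ closedBall (0 : E N) 1, ‖D q' x - D q x‖ ≤ ε := by
    intro q hq ε hε
    have h1 : ContinuousOn (fun z : (ℝ × ℝ) × E N => ‖D z.1 z.2 - D q z.2‖) (Q ×ˢ univ) :=
      (hDcont.sub (((hDx q hq).comp continuous_snd).continuousOn)).norm
    have h2 : IsOpen ((Q ×ˢ univ) ∩ (fun z : (ℝ × ℝ) × E N => ‖D z.1 z.2 - D q z.2‖) ⁻¹' Iio ε) :=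
      h1.isOpen_inter_preimage hO isOpen_Iio
    have h3 : ({q} : Set (ℝ × ℝ)) ×ˢ closedBall (0 : E N) 1 ⊆
        (Q ×ˢ univ) ∩ (fun z : (ℝ × ℝ) × E N => ‖D z.1 z.2 - D q z.2‖) ⁻¹' Iio ε := by
      rintro ⟨q', x⟩ ⟨hq', _⟩
      have hq'' : q' = q := hq'
      subst hq''
      exact ⟨⟨hq, mem_univ x⟩, by simpa using hε⟩
    obtain ⟨u, v, hu, hv, hqu, hsv, huv⟩ := generalized_tube_lemma isCompact_singleton
      (isCompact_closedBall (0 : E N) 1) h2 h3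
    obtain ⟨δ, hδ, hball⟩ := Metric.isOpen_iff.1 hu q (hqu rfl)
    refine ⟨δ, hδ, fun q' hq' => ?_⟩
    have h4 : ∀ x ∈ closedBall (0 : E N) 1, ((q', x) : (ℝ × ℝ) × E N) ∈
        (Q ×ˢ univ) ∩ (fun z : (ℝ × ℝ) × E N => ‖D z.1 z.2 - D q z.2‖) ⁻¹' Iio ε :=
      fun x hx => huv ⟨hball hq', hsv hx⟩
    exact ⟨(h4 0 (by simp)).1.1, fun x hx => le_of_lt (h4 x hx).2⟩
  set C₀ : ℝ := SS N * VV60 N ρ + 1 with hC₀
  have hC₀pos : 0 < C₀ := by
    have h1 : 0 ≤ SS N * VV60 N ρ := mul_nonneg SS_pos.le (VV60_nonneg N ρ)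
    linarith
  have hTb : ∀ {g : E N → ℝ} {K : ℝ}, 0 ≤ K → Continuous g → (∀ x ∈ closedBall (0 : E N) 1,
      |g x| ≤ K) → ‖T (ann N ρ) g‖ ≤ C₀ * K := by
    intro g K hK0 hg hK
    have h1 := T_bdd60 hN hK0 hg.aestronglyMeasurable
      (fun x hx => hK x (ann_sub_closed60 N ρ hx))
    calc ‖T (ann N ρ) g‖ ≤ SS N * VV60 N ρ * K := h1
      _ ≤ C₀ * K := mul_le_mul_of_nonneg_right (by rw [hC₀]; linarith) hK0
  refine ⟨U', ?_, ?_, ?_⟩
  · intro q hq
    refine HasFDerivAt.of_isLittleO ?_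
    rw [Asymptotics.isLittleO_iff]
    intro c hc
    obtain ⟨δ, hδ, hball⟩ := htube q hq (c / C₀) (div_pos hc hC₀pos)
    filter_upwards [ball_mem_nhds q hδ] with q' hq'
    have hq'Q := (hball q' hq').1
    have h1 : ∀ x ∈ closedBall (0 : E N) 1,
        ‖H q' x - H q x - D q x (q' - q)‖ ≤ c / C₀ * ‖q' - q‖ := by
      intro x hx
      exact (convex_ball q δ).norm_image_sub_le_of_norm_hasFDerivWithin_le'
        (f := fun q => H q x) (f' := fun q => D q x) (φ := D q x)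
        (fun y hy => (hD y (hball y hy).1 x).hasFDerivWithinAt)
        (fun y hy => (hball y hy).2 x hx) (mem_ball_self hδ) hq'
    have h2 : T (ann N ρ) (H q') - T (ann N ρ) (H q) - T (ann N ρ) (fun x => D q x (q' - q)) =
        T (ann N ρ) (fun x => H q' x - H q x - D q x (q' - q)) := by
      rw [T_sub hN (meas_ann60 N ρ)
        (g := fun x => H q' x - H q x) (h := fun x => D q x (q' - q))
        (Mq_cont60 ((hHx q' hq'Q).sub (hHx q hq)) _) (Mq_cont60 (hDv q hq _) _),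
        T_sub hN (meas_ann60 N ρ) (Mq_cont60 (hHx q' hq'Q) _) (Mq_cont60 (hHx q hq) _)]
    have h3 : ‖Tx e ρ (H q') - Tx e ρ (H q) - U' q (q' - q)‖ =
        ‖T (ann N ρ) (H q') - T (ann N ρ) (H q) - T (ann N ρ) (fun x => D q x (q' - q))‖ := by
      change ‖((Tx e ρ (H q') - Tx e ρ (H q) - U' q (q' - q) : XS e ρ) : LV N)‖ = _
      rw [Submodule.coe_sub, Submodule.coe_sub, Tx_coe60 (hmem q' hq'Q),
        Tx_coe60 (hmem q hq), hU' q hq]
    rw [h3, h2]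
    have h4 := hTb (K := c / C₀ * ‖q' - q‖) (by positivity)
      (((hHx q' hq'Q).sub (hHx q hq)).sub (hDv q hq (q' - q))) h1
    calc _ ≤ C₀ * (c / C₀ * ‖q' - q‖) := h4
      _ = c * ‖q' - q‖ := by field_simp
  · intro q hq
    refine ContinuousAt.continuousWithinAt ?_
    refine (Metric.tendsto_nhds (u := U') (f := 𝓝 q) (a := U' q)).2 fun ε hε => ?_
    obtain ⟨δ, hδ, hball⟩ := htube q hq (ε / (2 * C₀)) (by positivity)
    filter_upwards [ball_mem_nhds q hδ] with q' hq'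
    have hq'Q := (hball q' hq').1
    have h0 : dist (U' q') (U' q) = ‖U' q' - U' q‖ := dist_eq_norm (U' q') (U' q)
    have h1 : ‖U' q' - U' q‖ ≤ ε / 2 := by
      refine ContinuousLinearMap.opNorm_le_bound _ (by positivity) fun v => ?_
      have h2 : ‖(U' q' - U' q) v‖ = ‖T (ann N ρ) (fun x => D q' x v - D q x v)‖ := by
        rw [T_sub hN (meas_ann60 N ρ) (Mq_cont60 (hDv q' hq'Q v) _) (Mq_cont60 (hDv q hq v) _),
          ← hU' q' hq'Q, ← hU' q hq]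
        rfl
      rw [h2]
      have h3 : ∀ x ∈ closedBall (0 : E N) 1, |D q' x v - D q x v| ≤ ε / (2 * C₀) * ‖v‖ := by
        intro x hx
        have h4 := ((D q' x - D q x).le_opNorm v).trans
          (mul_le_mul_of_nonneg_right ((hball q' hq').2 x hx) (norm_nonneg v))
        exact h4
      have h4 := hTb (K := ε / (2 * C₀) * ‖v‖) (by positivity)
        ((hDv q' hq'Q v).sub (hDv q hq v)) h3
      calc _ ≤ C₀ * (ε / (2 * C₀) * ‖v‖) := h4
        _ = ε / 2 * ‖v‖ := by field_simp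
    exact h0.trans_lt (h1.trans_lt (by linarith))
  · intro q hq v
    rw [hU' q hq]
    congr 1
    funext x
    rw [(hD q hq x).fderiv]

end Pool.Agent.helper13.BN
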